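import Pool.Agent.R479.DA.Exact

/-!
# The size of `T` at the fractions near a real number: exact dimensions and an exact almost sure law

The fraction `p / q` in lowest terms, `0 < p < q`, gives the abc-triple `(p, q - p, q)`.

(1) For `1 ≤ η ≤ 2`, `τ > 0` and real `K` the real numbers `ξ` with infinitely many fractions such that
`|ξ - p / q| ≤ q ^ (-τ)` and `T (p, q - p, q) ≥ - η √(log q) - K / √(log q)` form a set of Hausdorff
dimension exactly `min 1 (η / τ)`. (2) For `0 < η ≤ 2` the dimension is at least `min 1 (η / τ)`.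
(3) For almost all `ξ` in `(0, 1)` and all `1 < τ < 2` the upper limit of `T (p, q - p, q) / √(log q)`
over the fractions with `|ξ - p / q| ≤ q ^ (-τ)` is exactly `-τ`.
-/

set_option autoImplicit false

namespace Pool.Agent.Results.MP_4ab349_nt.ExactDimension

open Filter Topology MeasureTheory

/-- the product of the primes dividing `n` -/
def rad (n : ℕ) : ℕ := ∏ p ∈ n.primeFactors, p

/-- `T(a, b, c) = log (c / rad(abc)) / √(log c)` -/
noncomputable def T (a b c : ℕ) : ℝ :=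
  Real.log ((c : ℝ) / (rad (a * b * c) : ℝ)) / Real.sqrt (Real.log c)

/-- the fraction `t.1 / t.2` in lowest terms and in `(0, 1)` approximates `ξ` with exponent `τ` -/
def Approximates (τ ξ : ℝ) (t : ℕ × ℕ) : Prop :=
  0 < t.1 ∧ t.1 < t.2 ∧ Nat.Coprime t.1 t.2 ∧ |ξ - (t.1 : ℝ) / t.2| ≤ (t.2 : ℝ) ^ (-τ)

/-- the abc-triple `(p, q - p, q)` of the fraction `p / q = t.1 / t.2` satisfies
`T ≥ - η √(log q) - K / √(log q)`, that is `rad (p (q - p) q) ≤ e ^ K q ^ (1 + η)` -/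
def Large (η K : ℝ) (t : ℕ × ℕ) : Prop :=
  - η * Real.sqrt (Real.log t.2) - K / Real.sqrt (Real.log t.2) ≤ T t.1 (t.2 - t.1) t.2

/-- the real numbers with infinitely many approximations of exponent `τ` with such a large `T` -/
def W (η K τ : ℝ) : Set ℝ := {ξ | {t : ℕ × ℕ | Approximates τ ξ t ∧ Large η K t}.Infinite}

lemma rad_pos (n : ℕ) : 0 < rad n :=
  Finset.prod_pos fun _ hp => (Nat.prime_of_mem_primeFactors hp).pos

lemma large_iff {η K : ℝ} {p q : ℕ} (h1 : 0 < p) (h2 : p < q) :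
    Large η K (p, q) ↔ (rad (p * q * (q - p)) : ℝ) ≤ Real.exp K * (q : ℝ) ^ (1 + η) := by
  have hq : (1 : ℝ) < (q : ℝ) := by exact_mod_cast (by omega : 1 < q)
  have hq0 : (0 : ℝ) < (q : ℝ) := by linarith
  have hl : 0 < Real.log (q : ℝ) := Real.log_pos hq
  have hs : 0 < Real.sqrt (Real.log (q : ℝ)) := Real.sqrt_pos.mpr hl
  have hr : (0 : ℝ) < (rad (p * (q - p) * q) : ℝ) := by exact_mod_cast rad_pos _
  have hss : Real.sqrt (Real.log (q : ℝ)) * Real.sqrt (Real.log (q : ℝ)) =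
      Real.log (q : ℝ) := Real.mul_self_sqrt hl.le
  have h7 : (-η * Real.sqrt (Real.log (q : ℝ)) - K / Real.sqrt (Real.log (q : ℝ))) *
      Real.sqrt (Real.log (q : ℝ)) = -η * Real.log (q : ℝ) - K := by
    rw [sub_mul, div_mul_cancel₀ _ hs.ne', mul_assoc, hss]
  have h8 : Real.log (Real.exp K * (q : ℝ) ^ (1 + η)) = K + (1 + η) * Real.log q := by
    rw [Real.log_mul (Real.exp_pos K).ne' (Real.rpow_pos_of_pos hq0 _).ne', Real.log_exp,
      Real.log_rpow hq0]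
  rw [show p * q * (q - p) = p * (q - p) * q by ring,
    ← Real.log_le_log_iff hr (by positivity), h8]
  unfold Large T
  simp only
  rw [Real.log_div hq0.ne' hr.ne', le_div_iff₀ hs, h7]
  constructor <;> intro h <;> linarith

lemma W_eq (η K τ : ℝ) : W η K τ = Pool.Agent.R479.DA.WW (Real.exp K) (1 + η) τ := by
  unfold W Pool.Agent.R479.DA.WW
  ext ξ
  simp only [Set.mem_ofPred_eq]
  have : {t : ℕ × ℕ | Approximates τ ξ t ∧ Large η K t} =
      {t | t ∈ Pool.Agent.R479.DA.Sm (Real.exp K) (1 + η) ∧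
        |ξ - (t.1 : ℝ) / t.2| ≤ (t.2 : ℝ) ^ (-τ)} := by
    ext ⟨p, q⟩
    constructor
    · rintro ⟨⟨h1, h2, h3, h4⟩, h5⟩
      exact ⟨⟨h1, h2, h3, (large_iff h1 h2).1 h5⟩, h4⟩
    · rintro ⟨⟨h1, h2, h3, h5⟩, h4⟩
      exact ⟨⟨h1, h2, h3, h4⟩, (large_iff h1 h2).2 h5⟩
  rw [this]

lemma Approximates.mono {τ τ' ξ : ℝ} {t : ℕ × ℕ} (h : Approximates τ ξ t) (hτ : τ' ≤ τ) :
    Approximates τ' ξ t := by
  obtain ⟨h1, h2, h3, h4⟩ := h
  refine ⟨h1, h2, h3, h4.trans (Real.rpow_le_rpow_of_exponent_le ?_ (by linarith))⟩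
  have : 1 ≤ t.2 := by omega
  exact_mod_cast this

/-- a set of dimension less than one is a null set -/
lemma null_of_dim {E : Set ℝ} {d : ℝ} (hd : d < 1) (h : dimH E ≤ ENNReal.ofReal d) :
    volume E = 0 := by
  have h1 : dimH E < 1 := lt_of_le_of_lt h (by
    rw [show (1 : ENNReal) = ENNReal.ofReal 1 by simp]
    exact (ENNReal.ofReal_lt_ofReal_iff one_pos).2 hd)
  have h2 : Measure.hausdorffMeasure ((1 : NNReal) : ℝ) E = 0 :=
    hausdorffMeasure_of_dimH_lt (by simpa using h1)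
  rw [NNReal.coe_one, hausdorffMeasure_real] at h2
  exact h2

/-- `T` as a multiple of `√(log q)` -/
lemma large_mul {η ε : ℝ} {t : ℕ × ℕ} (h : -η * Real.sqrt (Real.log t.2) ≤ T t.1 (t.2 - t.1) t.2)
    (hε : η ≤ ε) : Large ε 0 t := by
  unfold Large
  rw [zero_div, sub_zero]
  refine le_trans ?_ h
  have := Real.sqrt_nonneg (Real.log t.2)
  nlinarith

lemma large_mul' {η : ℝ} {t : ℕ × ℕ} (h : Large η 0 t) :
    -η * Real.sqrt (Real.log t.2) ≤ T t.1 (t.2 - t.1) t.2 := by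
  unfold Large at h
  rwa [zero_div, sub_zero] at h

lemma Fx_lt {τ r : ℝ} (hτ : 1 < τ) (hr : r < 1 + τ) : Pool.Agent.W221.ABC7.Fx r < τ := by
  unfold Pool.Agent.W221.ABC7.Fx
  split_ifs <;> linarith

/-- almost all numbers: only finitely many approximations have a larger `T` -/
theorem ae_finite : ∀ᵐ ξ : ℝ, ∀ τ : ℝ, 1 < τ → ∀ ε : ℝ, 0 < ε →
    {t : ℕ × ℕ | Approximates τ ξ t ∧
      (-τ + ε) * Real.sqrt (Real.log t.2) ≤ T t.1 (t.2 - t.1) t.2}.Finite := by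
  have h0 : ∀ σ η : ℚ, ∀ᵐ ξ : ℝ, 1 < (σ : ℝ) → 0 < (η : ℝ) → (η : ℝ) < σ →
      {t : ℕ × ℕ | Approximates σ ξ t ∧ Large η 0 t}.Finite := by
    intro σ η
    by_cases h : 1 < (σ : ℝ) ∧ 0 < (η : ℝ) ∧ (η : ℝ) < σ
    · obtain ⟨h1, h2, h3⟩ := h
      have h4 : dimH (W η 0 σ) ≤ ENNReal.ofReal (Pool.Agent.W221.ABC7.Fx (1 + η) / σ) := by
        rw [W_eq]
        exact Pool.Agent.R479.DA.dim_sm _ _ _ (by linarith) (by linarith)
      have h5 : Pool.Agent.W221.ABC7.Fx (1 + η) / σ < 1 := by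
        rw [div_lt_one (by linarith)]
        exact Fx_lt h1 (by linarith)
      have h6 := null_of_dim h5 h4
      have h7 : ∀ᵐ ξ : ℝ, ξ ∉ W η 0 σ := measure_eq_zero_iff_ae_notMem.mp h6
      filter_upwards [h7] with ξ hξ _ _ _
      exact Set.not_infinite.1 hξ
    · exact Eventually.of_forall fun ξ h1 h2 h3 => absurd ⟨h1, h2, h3⟩ h
  filter_upwards [ae_all_iff.2 fun σ => ae_all_iff.2 (h0 σ)] with ξ hξ τ hτ ε hε
  -- rational `σ ≤ τ` and `η` between `τ - ε` and `σ`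
  obtain ⟨σ, hσ1, hσ2⟩ := exists_rat_btwn (show max 1 (τ - ε) < τ from max_lt hτ (by linarith))
  obtain ⟨η, hη1, hη2⟩ := exists_rat_btwn (show max 0 (τ - ε) < (σ : ℝ) from
    max_lt (lt_of_lt_of_le one_pos (le_trans (le_max_left _ _) hσ1.le))
      (lt_of_le_of_lt (le_max_right _ _) hσ1))
  have hσ3 : 1 < (σ : ℝ) := lt_of_le_of_lt (le_max_left _ _) hσ1
  have hη3 : 0 < (η : ℝ) := lt_of_le_of_lt (le_max_left _ _) hη1
  have hη4 : τ - ε < (η : ℝ) := lt_of_le_of_lt (le_max_right _ _) hη1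
  refine (hξ σ η hσ3 hη3 hη2).subset ?_
  rintro t ⟨h1, h2⟩
  refine ⟨h1.mono hσ2.le, large_mul (η := τ - ε) ?_ hη4.le⟩
  rw [show -(τ - ε) = -τ + ε by ring]
  exact h2

/-- almost all numbers in `(0, 1)`: infinitely many approximations have `T` nearly as large -/
theorem ae_infinite : ∀ᵐ ξ : ℝ, ξ ∈ Set.Ioo (0 : ℝ) 1 → ∀ τ : ℝ, 0 < τ → τ < 2 → ∀ ε : ℝ, 0 < ε →
    {t : ℕ × ℕ | Approximates τ ξ t ∧
      (-τ - ε) * Real.sqrt (Real.log t.2) ≤ T t.1 (t.2 - t.1) t.2}.Infinite := by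
  have h0 : ∀ σ η : ℚ, ∀ᵐ ξ : ℝ, ξ ∈ Set.Ioo (0 : ℝ) 1 → 0 < (σ : ℝ) → (σ : ℝ) < η → (η : ℝ) ≤ 2 →
      {t : ℕ × ℕ | Approximates σ ξ t ∧ Large η 0 t}.Infinite := by
    intro σ η
    by_cases h : 0 < (σ : ℝ) ∧ (σ : ℝ) < η ∧ (η : ℝ) ≤ 2
    · obtain ⟨h1, h2, h3⟩ := h
      have h4 := Pool.Agent.R479.DA.ae_WW (B := Real.exp 0) (lam := 1 + η) (τ := σ) (by linarith)
        (by linarith) (Real.exp_pos 0) (by linarith)
      rw [← W_eq] at h4
      filter_upwards [h4] with ξ hξ hξ01 _ _ _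
      exact hξ hξ01
    · exact Eventually.of_forall fun ξ _ h1 h2 h3 => absurd ⟨h1, h2, h3⟩ h
  filter_upwards [ae_all_iff.2 fun σ => ae_all_iff.2 (h0 σ)] with ξ hξ hξ01 τ hτ hτ2 ε hε
  obtain ⟨σ, hσ1, hσ2⟩ := exists_rat_btwn (show τ < min 2 (τ + ε) from lt_min hτ2 (by linarith))
  obtain ⟨η, hη1, hη2⟩ := exists_rat_btwn hσ2
  have hη3 : (η : ℝ) < 2 := lt_of_lt_of_le hη2 (min_le_left _ _)
  have hη4 : (η : ℝ) < τ + ε := lt_of_lt_of_le hη2 (min_le_right _ _)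
  refine (hξ σ η hξ01 (by linarith) hη1 hη3.le).mono ?_
  rintro t ⟨h1, h2⟩
  refine ⟨h1.mono hσ1.le, ?_⟩
  have h3 := large_mul' h2
  refine le_trans ?_ h3
  have := Real.sqrt_nonneg (Real.log t.2)
  nlinarith

/-- **Theorem.** (1) Let `1 ≤ η ≤ 2`, `τ > 0` and `K` be real. The set `W η K τ` of the real numbers
with infinitely many fractions `p / q` in lowest terms in `(0, 1)` such that `|ξ - p / q| ≤ q ^ (-τ)`
and `T (p, q - p, q) ≥ - η √(log q) - K / √(log q)` has Hausdorff dimension `min 1 (η / τ)`.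
(2) For `0 < η ≤ 2` its dimension is at least `min 1 (η / τ)`. (3) For almost all `ξ` in `(0, 1)` and all
`1 < τ < 2`, among the fractions with `|ξ - p / q| ≤ q ^ (-τ)` for every `ε > 0` only finitely many
satisfy `T (p, q - p, q) ≥ (-τ + ε) √(log q)` and infinitely many satisfy
`T (p, q - p, q) ≥ (-τ - ε) √(log q)`. -/
theorem result :
    (∀ η K τ : ℝ, 1 ≤ η → η ≤ 2 → 0 < τ → dimH (W η K τ) = ENNReal.ofReal (min 1 (η / τ))) ∧
    (∀ η K τ : ℝ, 0 < η → η ≤ 2 → 0 < τ → ENNReal.ofReal (min 1 (η / τ)) ≤ dimH (W η K τ)) ∧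
    (∀ᵐ ξ : ℝ, ξ ∈ Set.Ioo (0 : ℝ) 1 → ∀ τ : ℝ, 1 < τ → τ < 2 → ∀ ε : ℝ, 0 < ε →
      {t : ℕ × ℕ | Approximates τ ξ t ∧
        (-τ + ε) * Real.sqrt (Real.log t.2) ≤ T t.1 (t.2 - t.1) t.2}.Finite ∧
      {t : ℕ × ℕ | Approximates τ ξ t ∧
        (-τ - ε) * Real.sqrt (Real.log t.2) ≤ T t.1 (t.2 - t.1) t.2}.Infinite) := by
  refine ⟨fun η K τ h1 h2 h3 => ?_, fun η K τ h1 h2 h3 => ?_, ?_⟩
  · rw [W_eq, Pool.Agent.R479.DA.dim_exact (by linarith) (by linarith) (Real.exp_pos K) h3]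
    rw [show 1 + η - 1 = η by ring]
  · rw [W_eq]
    have h := Pool.Agent.R479.DA.dim_ge (lam := 1 + η) (B := Real.exp K) (by linarith) (by linarith)
      (Real.exp_pos K) h3
    rwa [show 1 + η - 1 = η by ring] at h
  · filter_upwards [ae_finite, ae_infinite] with ξ h1 h2 hξ τ hτ hτ2 ε hε
    exact ⟨h1 τ hτ ε hε, h2 hξ τ (by linarith) hτ2 ε hε⟩

end Pool.Agent.Results.MP_4ab349_nt.ExactDimension
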