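import Pool.Agent.J6H13.ABC.Main

/-!
# abc-triples with large `T`: the constant `4 √e`

For every `K < 4 √e = 6.5948...` there are infinitely many abc-triples with
`T (a, b, c) > K / log log c`, that is `rad (abc) < c exp (-K √(log c) / log log c)`.

Proof. Let `P` be the set of the odd primes up to `y`, `n` their number, `s = y log y / e`. The integer
vectors `x` with `∑ U (x_p log p / s) ≤ (2 + 2 ε) n`, where `U (t) = 2 log (2 cosh (t / 2)) = E |t - X|`
for a variable `X` with the logistic law, number at least `exp ((2 - 4 ε) n) ∏ (s / log p)`, because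
the entropy of the logistic law is `2` (law of large numbers). By the pigeonhole principle many of them
lie in one class modulo `2 ^ m` (of the rational number `∏ p ^ (x_p)`) and in one window of
`∑ x_p log p`. For `N` real numbers `∑_{i,j} |t_i - t_j| ≤ 2 N ∑ U (t_i) - 2 N ^ 2`, so two of the
vectors have a difference `d` with `∑ |d_p| log p ≤ (2 + O(ε)) n s`; the rational number with exponents
`d` gives the abc-triple. The prime number theorem does the rest.
-/

set_option autoImplicit false

namespace Pool.Agent.Results.MP_4ab349_nt.ExtremalTriples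

/-- the product of the distinct primes dividing `n` -/
def rad (n : ℕ) : ℕ := ∏ p ∈ n.primeFactors, p

/-- `T(a, b, c) = log (c / rad(abc)) / √(log c)` -/
noncomputable def T (a b c : ℕ) : ℝ :=
  Real.log ((c : ℝ) / (rad (a * b * c) : ℝ)) / Real.sqrt (Real.log c)

/-- For every real `K < 4 √e` there are infinitely many abc-triples `(a, b, c)` with
`T (a, b, c) > K / log log c`. -/
theorem result (K : ℝ) (hK : K < 4 * Real.sqrt (Real.exp 1)) :
    {t : ℕ × ℕ × ℕ | 0 < t.1 ∧ 0 < t.2.1 ∧ t.1 + t.2.1 = t.2.2 ∧ Nat.Coprime t.1 t.2.1 ∧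
      K / Real.log (Real.log (t.2.2 : ℝ)) < T t.1 t.2.1 t.2.2}.Infinite := by
  intro hfin
  obtain ⟨N, hN⟩ := (hfin.image (fun t : ℕ × ℕ × ℕ => t.2.2)).bddAbove
  obtain ⟨a, b, c, ha, hb, habc, hab, hNc, hK2⟩ := Pool.Agent.J6H13.ABC.main K hK (max N 3)
  have h1 : N < c := lt_of_le_of_lt (le_max_left _ _) hNc
  have h2 : 3 < c := lt_of_le_of_lt (le_max_right _ _) hNc
  have h3 : c ≤ N := by
    refine hN ⟨(a, b, c), ⟨ha, hb, habc, hab, ?_⟩, rfl⟩
    show K / Real.log (Real.log (c : ℝ)) < T a b c
    have h4 : (0 : ℝ) < Real.log c := Real.log_pos (by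
      have : (3 : ℝ) < c := by exact_mod_cast h2
      linarith)
    have h5 : 0 < Real.sqrt (Real.log c) := Real.sqrt_pos.2 h4
    have h6 : (Pool.Agent.J6H13.ABC.rad (a * b * c) : ℝ) = (rad (a * b * c) : ℝ) := rfl
    rw [h6] at hK2
    unfold T
    rw [lt_div_iff₀ h5]
    refine lt_of_eq_of_lt ?_ hK2
    ring
  omega

end Pool.Agent.Results.MP_4ab349_nt.ExtremalTriples
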