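import Pool.Agent.J6H45.WF.Abc

/-!
# `rad (abc) > c ^ (1 - 1 / √(log c))` for all abc-triples divisible by an integer near the orbits of Euler's function

For `0 ≤ η < 7 / 9` let `f (η) < 1` be the exponent of the starting theorem `SequenceMembers`, `f (0) = 15 / 28`. An integer
`n` is good (`Good A η K`) if EVERY abc-triple `(a, b, c)` with `n ∣ abc` and `c ≤ n ^ A` satisfies
`T(a, b, c) < - η √(log c) - K / √(log c)`, that is `rad (abc) > exp K * c ^ (1 + η)`; for `η = K = 0` this is `T < 0`, and it
implies the inequality `rad (abc) > c ^ (1 - 1 / √(log c))` of the question.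

Let `φ_l` be the `l`-th iterate of Euler's function, `φ_0 (m) = m`, and let `g` be a positive multiplicative function of at
most polynomial growth such that `g p ≤ M p` for the large primes `p`, with different values at different large primes; for
example the identity, Euler's function or the sum of the divisors. Let `G` be a function with steps bounded below by a
positive constant and growth at most `v ^ d`, for example `G v = α v ^ d`, and let `d A f (η) + κ < 1`. For all `L`, almost
all `m` and all `l ≤ L`, with `v = g(φ_l(m))`, ALL the integers `n` with `|n - G(v)| ≤ v ^ κ` are good.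

For example, with `A = 1`, `η = 0`, `g = φ`: for almost all `m`, for all `l ≤ L` and `v = φ_l(m)`, all abc-triples with
`c ≤ n` and `n ∣ abc` for some integer `n` at distance less than `v ^ (1 / 29)` from `v ^ (9 / 5)` satisfy `rad (abc) > c`.

The starting theorem `SequenceMembers` treats the triples with a MEMBER near `α v_N`, for a fixed increasing sequence `v_N` and
almost all real numbers `α`. The iterates of Euler's function are not multiplicative, their values form a thin set and are
taken with very large multiplicities, and so a power saving for the exceptional integers does not suffice by itself.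

Proof. (1) The number of the abc-triples with `c ≤ X` and `rad (abc) ≤ exp K * c ^ (1 + η)` is `O (X ^ (f (η) + ε))`
(`Pool.Agent.W221.ABC7`), and the product `abc` has few divisors, so that all integers `n ≤ X` but `O (X ^ (A f (η) + ε))` are
good. (2) The orbits of Euler's function avoid sets with a power saving (`Pool.Agent.N760.IT.densW`, helper760).
-/

set_option autoImplicit false

namespace Pool.Agent.Results.MP_4ab349_nt.OrbitDivisors

open Pool.Agent.N733.TG (LM Expanding lm_totient lm_sigma expanding_pow)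
open Pool.Agent.N760.IT (orb lm_id)
open Pool.Agent.J6H45.WF.ABC (Good rad f f_pos)

/-- **abc-triples with a divisor near the orbits of Euler's function.** (1) Let `A > 0`, `0 ≤ η < 7 / 9`, `K` real, `g` a
multiplicative function as above, `G` a function with steps bounded below and growth at most `v ^ d`, and `κ ≥ 0` with
`d A f(η) + κ < 1`. For all `L`, `ε > 0` and all large `N`: for all `m ≤ N` but `ε N`, for all `l ≤ L`, with `v = g(φ_l(m))`
(`orb g l m`), all `n ≥ 1` with `|n - G(v)| ≤ v ^ κ` are `Good A η K`: every abc-triple `(a, b, c)` with `n ∣ abc` and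
`c ≤ n ^ A` has `T(a, b, c) < - η √(log c) - K / √(log c)`. (2) If `n` is `Good A 0 0`, then all these triples satisfy
`rad (abc) > c ^ (1 - 1 / √(log c))`. (3) Examples for `g` and `G`. -/
theorem result :
    (∀ A η K : ℝ, 0 < A → 0 ≤ η → η < 7 / 9 → ∀ g : ℕ → ℕ, LM g → ∀ (G : ℕ → ℝ) (d : ℝ), Expanding G d →
      ∀ κ : ℝ, 0 ≤ κ → d * (A * f η) + κ < 1 → ∀ (L : ℕ) (ε : ℝ), 0 < ε → ∃ N₀ : ℕ, ∀ N : ℕ, N₀ ≤ N →
        ({m : ℕ | 1 ≤ m ∧ m ≤ N ∧ ¬ ∀ l ≤ L, ∀ n : ℕ, 1 ≤ n →
          |(n : ℝ) - G (orb g l m)| ≤ (orb g l m : ℝ) ^ κ → Good A η K n}.ncard : ℝ) ≤ ε * N) ∧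
    (∀ (A : ℝ) (n : ℕ), Good A 0 0 n → ∀ a b : ℕ, 0 < a → 0 < b → Nat.Coprime a b → n ∣ a * b * (a + b) →
      ((a + b : ℕ) : ℝ) ≤ (n : ℝ) ^ A →
        ((a + b : ℕ) : ℝ) ^ (1 - 1 / Real.sqrt (Real.log ((a + b : ℕ) : ℝ))) < (rad (a * b * (a + b)) : ℝ)) ∧
    (LM (fun m => m) ∧ LM Nat.totient ∧ LM (fun m => ∑ d ∈ m.divisors, d)) ∧
    (∀ α d : ℝ, 0 < α → 1 ≤ d → Expanding (fun v : ℕ => α * (v : ℝ) ^ d) d) := by
  refine ⟨fun A η K hA hη hη1 g hg G d hG κ hκ h1 L ε hε => ?_,
    fun A n h a b ha hb hab hd hh => Pool.Agent.J6H45.WF.ABC.holds_of_good h ha hb hab hd hh,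
    ⟨lm_id, lm_totient, lm_sigma⟩, fun α d hα hd => expanding_pow hα hd⟩
  have hd1 : 1 ≤ d := hG.one_le
  have hf := f_pos hη
  set δ : ℝ := (1 - κ - d * (A * f η)) / (2 * d) with hδ
  have hδ0 : 0 < δ := by
    rw [hδ]
    apply div_pos <;> linarith
  obtain ⟨C, hC⟩ := Pool.Agent.J6H45.WF.ABC.sparse K hA hη hη1 δ hδ0
  obtain ⟨N₀, hN₀⟩ := Pool.Agent.J6H45.WF.orbit hg hG (s := A * f η + δ) (κ := κ) (by positivity) hκ (by
    have h2 : d * δ = (1 - κ - d * (A * f η)) / 2 := by
      rw [hδ]
      field_simp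
    rw [mul_add, h2]
    linarith) C L ε hε
  exact ⟨N₀, fun N hN => hN₀ N hN (Good A η K) hC⟩

end Pool.Agent.Results.MP_4ab349_nt.OrbitDivisors
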