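import Pool.Agent.J6H45.WF.Abc
import Pool.Agent.J6H45.WF.Poly

/-!
# `rad (abc) > c ^ (1 - 1 / √(log c))` for all abc-triples divisible by a value of a polynomial at an approximation vector

For `0 ≤ η < 7 / 9` let `f (η) < 1` be the exponent of the starting theorem `SequenceMembers`, `f (0) = 15 / 28`. An integer
`n` is good (`Good A η K`) if EVERY abc-triple `(a, b, c)` with `n ∣ abc` and `c ≤ n ^ A` satisfies
`T(a, b, c) < - η √(log c) - K / √(log c)`, that is `rad (abc) > exp K * c ^ (1 + η)`; for `η = K = 0` this is `T < 0`, and it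
implies the inequality `rad (abc) > c ^ (1 - 1 / √(log c))` of the question.

Let `k ≥ 1`, `D` and `r` be natural numbers, `γ ∈ ℝ^r` and `τ > 0`. For all real matrices `α` with `k` rows and `r` columns
outside a set of Hausdorff dimension at most `(k - 1) r + (r + k - 1 + D A f (η)) / (1 + τ)`, for ALL nonconstant polynomials `F`
in `k` variables with integral coefficients and of degree at most `D`, and for all real `c`: for all large integer vectors
`v` with `‖(v α)_j - γ_j‖ ≤ c |v| ^ (-τ)` for all `j`, where `‖x‖` is the distance of `x` to the nearest integer, the integer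
`F(v)` is not `0`, and `|F(v)|` is good.

For `τ = k / r`, `γ = 0` and `c = 1` these are all the best approximation vectors `v` of the system `α` of `r` linear forms in
`k` variables, and the bound for the dimension is less than `k r` if `D A f (η) < 1`. For example (`k = r = D = A = 1`,
`η = 0`): for all real numbers `α` outside a set of dimension at most `43 / 56`, for all convergents `p / q` of `α` with large
`q`, and all fixed integers `u ≠ 0` and `w`, all abc-triples with `(u q + w) ∣ abc` and `c ≤ |u q + w|` satisfy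
`rad (abc) > c`. The starting theorem `Approximations` treats the one triple `(p, q - p, q)` of a convergent.

Proof. (1) The number of the abc-triples with `c ≤ X` and `rad (abc) ≤ exp K * c ^ (1 + η)` is `O (X ^ (f (η) + ε))`
(`Pool.Agent.W221.ABC7`), and the product `abc` has few divisors, so that all integers `n ≤ X` but `O (X ^ (A f (η) + ε))` are
good. (2) So there are `O (X ^ (k - 1 + D A f (η) + ε))` vectors `v` in the box of size `X` with `F(v)` exceptional, by the lemma
of Schwartz and Zippel (`Pool.Agent.J6H45.WF.thin_poly`). (3) The metric theorem `Pool.Agent.N671.DA.approx_vectors`.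
-/

set_option autoImplicit false

namespace Pool.Agent.Results.MP_4ab349_nt.PolynomialsAtApproximations

open Pool.Agent.N671.DA (Near)
open Pool.Agent.J6H45.WF.ABC (Good rad f f_pos)

/-- **abc-triples with a divisor which is a polynomial of an approximation vector.** (1) Let `A > 0`, `0 ≤ η < 7 / 9`, `K`
real, `k ≥ 1`, `D`, `r` natural numbers, `γ ∈ ℝ^r` and `τ > 0`. There is a set `S` of real matrices with `k` rows and `r` columns
of Hausdorff dimension at most `(k - 1) r + (r + k - 1 + D A f(η)) / (1 + τ)` such that for all `α` outside `S`, all polynomials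
`F` with integral coefficients of degree between `1` and `D` and all `c`, for all large integer vectors `v` with
`‖(v α)_j - γ_j‖ ≤ c |v| ^ (-τ)` for all `j`, the integer `F(v)` is not `0`, and `|F(v)|` is `Good A η K`: every abc-triple
`(a, b, c)` with `F(v) ∣ abc` and `c ≤ |F(v)| ^ A` has `T(a, b, c) < - η √(log c) - K / √(log c)`. (2) If `n` is `Good A 0 0`,
then all these triples satisfy `rad (abc) > c ^ (1 - 1 / √(log c))`. -/
theorem result :
    (∀ A η K : ℝ, 0 < A → 0 ≤ η → η < 7 / 9 → ∀ k D r : ℕ, 1 ≤ k → ∀ (γ : Fin r → ℝ) (τ : ℝ), 0 < τ →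
      ∃ S : Set (Fin k × Fin r → ℝ),
        dimH S ≤ ENNReal.ofReal (((k : ℝ) - 1) * r + (r + ((k : ℝ) - 1 + D * (A * f η))) / (1 + τ)) ∧
        ∀ α, α ∉ S → ∀ F : MvPolynomial (Fin k) ℤ, 1 ≤ F.totalDegree → F.totalDegree ≤ D → ∀ c : ℝ, ∃ Q : ℝ,
          ∀ v : Fin k → ℤ, Q ≤ ‖v‖ → Near α γ v (c * ‖v‖ ^ (-τ)) →
            MvPolynomial.eval v F ≠ 0 ∧ Good A η K (MvPolynomial.eval v F).natAbs) ∧
    (∀ (A : ℝ) (n : ℕ), Good A 0 0 n → ∀ a b : ℕ, 0 < a → 0 < b → Nat.Coprime a b → n ∣ a * b * (a + b) →
      ((a + b : ℕ) : ℝ) ≤ (n : ℝ) ^ A →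
        ((a + b : ℕ) : ℝ) ^ (1 - 1 / Real.sqrt (Real.log ((a + b : ℕ) : ℝ))) < (rad (a * b * (a + b)) : ℝ)) := by
  refine ⟨fun A η K hA hη hη1 k D r hk γ τ hτ => ?_,
    fun A n h a b ha hb hab hd hh => Pool.Agent.J6H45.WF.ABC.holds_of_good h ha hb hab hd hh⟩
  have hf := f_pos hη
  exact Pool.Agent.J6H45.WF.approx_poly hk (s := A * f η) (by positivity)
    (fun δ hδ => Pool.Agent.J6H45.WF.ABC.sparse K hA hη hη1 δ hδ) D γ hτ

end Pool.Agent.Results.MP_4ab349_nt.PolynomialsAtApproximations
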